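import Pool.Agent.Lib.MP_bb6489_pr.Final

/-!
# Polynomial depth of depth weighted trees with weight `exp (c k / log (k + 2))`

Full answer to Q1 of MP_bb6489_pr: for every `c > 0` the depth weighted tree `T_n` with weight
function `f_c (k) = exp (c k / log (k + 2))` has depth `n ^ (β + o(1))` with high probability,
where `β = 2 c / (1 + 2 c)`.

The trees (`depth`, `height`) and the law `treeLaw` of `T_{n+1}` are defined in
`Pool.Agent.Lib.MP_bb6489_pr.Tree`. The law of `T_1` is a point mass at the tree with the root
alone, and given `T_{n+1} = t` the vertex `n + 2` gets the parent `i` with probability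
`f (depth t i) / totalWeight f t`.
-/

open Filter Topology

namespace Pool.Agent.Results.MP_bb6489_pr.PolynomialDepth

open Pool.Agent.Lib.MP_bb6489_pr

noncomputable section

/-- The weight function `f_c`. -/
def weight (c : ℝ) (k : ℕ) : ℝ := Real.exp (c * k / Real.log (k + 2))

theorem weight_pos (c : ℝ) (k : ℕ) : 0 < weight c k := Real.exp_pos _

/-- **Polynomial depth.** For every `c > 0` the number `β = 2 c / (1 + 2 c)` lies in `(0, 1)` and
for every `ε > 0` the depth of the depth weighted tree `T_{n+1}` with weight function `f_c` lies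
between `(n+1) ^ (β - ε)` and `(n+1) ^ (β + ε)` with probability tending to one. -/
theorem result (c : ℝ) (hc : 0 < c) :
    ∃ β : ℝ, β = 2 * c / (1 + 2 * c) ∧ 0 < β ∧ β < 1 ∧
      ∀ ε : ℝ, 0 < ε → Tendsto (fun n : ℕ =>
        (treeLaw (weight c) (weight_pos c) n).toOuterMeasure
          {t : List ℕ | ((n:ℝ) + 1) ^ (β - ε) ≤ (height t : ℝ) ∧
            (height t : ℝ) ≤ ((n:ℝ) + 1) ^ (β + ε)}) atTop (𝓝 1) := by
  refine ⟨2 * c / (1 + 2 * c), rfl, by positivity, ?_, fun ε hε => main hc rfl hε⟩
  rw [div_lt_one (by positivity)]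
  linarith

end

end Pool.Agent.Results.MP_bb6489_pr.PolynomialDepth
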